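import Mathlib
import Pool.Agent.Helper44.QB.Step
import Pool.Agent.Helper67.QB.Series
import Pool.Agent.Helper28.QB.Hil

/-!
PROJECT QB (MP_6cd5f1_al). The families `Fw` of given weight are finite dimensional; the product
formula for their Euler characteristic series; its coefficients under exactness.
-/

set_option autoImplicit false

open scoped TensorProduct
open Pool.Agent.Helper44.QA Pool.Agent.Helper44.QB
open Pool.Agent.Helper67.QB hiding gg
open Module PowerSeries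

namespace Pool.Agent.Helper72.QB

universe u

variable {k R : Type u} [Field k] [CommRing R] [Algebra k R]
  {O : Type} [Fintype O] [LinearOrder O] {b : ℕ}

section lin

/-- `co m` as a `k`-linear map -/
noncomputable def cok (k : Type u) {R : Type u} [Field k] [CommRing R] [Algebra k R]
    {O : Type} [Fintype O] [LinearOrder O] {b : ℕ} (m : Mo O b) : AA R O b →ₗ[k] R where
  toFun := co m
  map_add' := map_add _
  map_smul' c x := by
    rw [k_smul_def, map_smul, smul_eq_mul, ← Algebra.smul_def]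
    rfl

/-- an `R`-linear endomorphism as a `k`-linear map -/
noncomputable def kk (k : Type u) {R : Type u} [Field k] [CommRing R] [Algebra k R]
    {O : Type} [Fintype O] [LinearOrder O] {b : ℕ} (f : AA R O b →ₗ[R] AA R O b) :
    AA R O b →ₗ[k] AA R O b where
  toFun := f
  map_add' := map_add _
  map_smul' c x := by
    rw [k_smul_def, map_smul]
    rfl

omit [LinearOrder O] in
theorem kk_apply [LinearOrder O] (f : AA R O b →ₗ[R] AA R O b) (x : AA R O b) :
    kk k f x = f x := rfl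

/-- the constants -/
noncomputable def em (k : Type u) (R : Type u) [Field k] [CommRing R] [Algebra k R]
    (O : Type) [Fintype O] [LinearOrder O] (b : ℕ) : R →ₗ[k] AA R O b where
  toFun r := r • (1 : AA R O b)
  map_add' r s := add_smul r s _
  map_smul' c r := by
    rw [k_smul_def, smul_smul, ← Algebra.smul_def]
    rfl

theorem em_apply (r : R) : em k R O b r = r • (1 : AA R O b) := rfl

theorem co_em (r : R) : co (∅, 0) (r • (1 : AA R O b)) = r := by
  rw [← mon_zero, map_smul, co_mon, if_pos rfl, smul_eq_mul, mul_one]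

theorem em_inj : Function.Injective (em k R O b) := by
  intro r s h
  have := congrArg (co (R := R) (∅, 0)) h
  rwa [em_apply, em_apply, co_em, co_em] at this

end lin

variable (𝒜 : ℕ → Submodule k R) {δ : O ⊕ Fin b → ℤ} {wN : O ⊕ Fin b → ℕ}

/-- the weights as integers -/
abbrev wZ (wN : O ⊕ Fin b → ℕ) : O ⊕ Fin b → ℤ := fun g => (wN g : ℤ)

omit [Fintype O] [LinearOrder O] in
/-- finitely many monomials of bounded weight -/
theorem finite_mono [Finite O] (hw : ∀ g, 1 ≤ wN g) (p : ℤ) :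
    {m : Mo O b | lin (wZ wN) m ≤ p}.Finite := by
  classical
  let P : Fin b →₀ ℕ := Finsupp.equivFunOnFinite.symm fun _ => p.toNat
  have h1 : (Set.Iic P).Finite := Set.finite_Iic P
  have h2 : ((Set.univ : Set (Finset O)) ×ˢ Set.Iic P).Finite := Set.finite_univ.prod h1
  refine h2.subset ?_
  intro m hm
  refine ⟨Set.mem_univ _, ?_⟩
  intro j
  change m.2 j ≤ p.toNat
  have h3 : (m.2 j : ℤ) ≤ lin (wZ wN) m := by
    unfold lin
    have h4 : 0 ≤ ∑ i ∈ m.1, (wZ wN) (Sum.inl i) :=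
      Finset.sum_nonneg fun i _ => by positivity
    have h5 : (m.2 j : ℤ) * (wZ wN) (Sum.inr j) ≤ ∑ j, (m.2 j : ℤ) * (wZ wN) (Sum.inr j) :=
      Finset.single_le_sum (f := fun j => (m.2 j : ℤ) * (wZ wN) (Sum.inr j))
        (fun j _ => by positivity) (Finset.mem_univ j)
    have h6 : (m.2 j : ℤ) * 1 ≤ (m.2 j : ℤ) * (wZ wN) (Sum.inr j) :=
      mul_le_mul_of_nonneg_left (by exact_mod_cast hw (Sum.inr j)) (by positivity)
    linarith
  have h7 : lin (wZ wN) m ≤ p := hm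
  omega

/-- the coefficients of large weight vanish -/
theorem co_zero_of_lt {S : Set (O ⊕ Fin b)} {n p : ℤ} {x : AA R O b}
    (hx : x ∈ Fw 𝒜 δ (wZ wN) S n p) {m : Mo O b} (hm : ¬ lin (wZ wN) m ≤ p) : co m x = 0 := by
  have h := (mem_Cd.1 (hx m)).2
  rw [AZ_neg 𝒜 (by omega), Submodule.mem_bot] at h
  exact h

/-- the coordinate map -/
noncomputable def cmap (s : Finset (Mo O b)) (S : Set (O ⊕ Fin b)) (n p : ℤ) :
    Fw 𝒜 δ (wZ wN) S n p →ₗ[k] (∀ m : s, AZ 𝒜 (p - lin (wZ wN) m.1)) where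
  toFun x m := ⟨cok k m.1 x.1, (mem_Cd.1 (x.2 m.1)).2⟩
  map_add' x y := by
    funext m
    apply Subtype.ext
    change cok k m.1 (x.1 + y.1) = cok k m.1 x.1 + cok k m.1 y.1
    rw [map_add]
  map_smul' c x := by
    funext m
    apply Subtype.ext
    change cok k m.1 (c • x.1) = c • cok k m.1 x.1
    rw [map_smul]

theorem finite_AZ (hfd : ∀ n, Module.Finite k (𝒜 n)) (q : ℤ) : Module.Finite k (AZ 𝒜 q) := by
  by_cases hq : 0 ≤ q
  · lift q to ℕ using hq
    rw [AZ_nat]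
    exact hfd q
  · rw [AZ_neg 𝒜 (not_le.1 hq)]
    infer_instance

theorem finite_Fw (hfd : ∀ n, Module.Finite k (𝒜 n)) (hw : ∀ g, 1 ≤ wN g)
    (S : Set (O ⊕ Fin b)) (n p : ℤ) : FiniteDimensional k (Fw 𝒜 δ (wZ wN) S n p) := by
  classical
  set s := (finite_mono (O := O) (b := b) hw p).toFinset with hs
  have h1 : ∀ m : s, Module.Finite k (AZ 𝒜 (p - lin (wZ wN) m.1)) := fun m =>
    finite_AZ 𝒜 hfd _
  refine FiniteDimensional.of_injective (cmap 𝒜 s S n p) ?_
  intro x y hxy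
  apply Subtype.ext
  apply co_ext
  intro m
  by_cases hm : lin (wZ wN) m ≤ p
  · have hms : m ∈ s := by
      rw [hs, Set.Finite.mem_toFinset]
      exact hm
    have := congrArg Subtype.val (congrFun hxy ⟨m, hms⟩)
    exact this
  · rw [co_zero_of_lt 𝒜 x.2 hm, co_zero_of_lt 𝒜 y.2 hm]

theorem exists_co_ne {x : AA R O b} (hx : x ≠ 0) : ∃ m, co m x ≠ 0 := by
  by_contra h
  push Not at h
  exact hx (co_ext fun m => by rw [h m, map_zero])

/-- the families are bigraded with finite pieces -/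
theorem bi_Fw (hfd : ∀ n, Module.Finite k (𝒜 n)) (hδ : ∀ g, 1 ≤ δ g) (hw : ∀ g, 1 ≤ wN g)
    (S : Set (O ⊕ Fin b)) : Bi (fun n p => Fw 𝒜 δ (wZ wN) S n p) := by
  constructor
  · intro p
    refine ⟨fun n => finite_Fw 𝒜 hfd hw S n p, ?_⟩
    obtain ⟨L, hL⟩ := ((finite_mono (O := O) (b := b) hw p).image (lin δ)).bddAbove
    refine ⟨L + 1, fun n hn => ?_⟩
    obtain ⟨x, hx, hx0⟩ := Submodule.exists_mem_ne_zero_of_ne_bot hn
    obtain ⟨m, hm⟩ := exists_co_ne hx0
    have h1 := (mem_Cd.1 (hx m)).1 hm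
    have h2 : lin (wZ wN) m ≤ p := by
      by_contra h
      exact hm (co_zero_of_lt 𝒜 hx h)
    have h3 : lin δ m ≤ L := hL ⟨m, h2, rfl⟩
    have h4 : 0 ≤ lin δ m := lin_nonneg (fun g => by linarith [hδ g]) m
    rw [h1.2] at h3 h4
    omega
  · intro n p hp
    rw [eq_bot_iff]
    intro x hx
    rw [Submodule.mem_bot]
    apply co_ext
    intro m
    rw [map_zero]
    refine co_zero_of_lt 𝒜 hx ?_
    have : 0 ≤ lin (wZ wN) m := lin_nonneg (fun g => by positivity) m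
    omega

section steps

variable {S : Set (O ⊕ Fin b)}

theorem insert_sdiff {g : O ⊕ Fin b} (hg : g ∉ S) : insert g S \ {g} = S := by
  rw [Set.insert_sdiff_of_mem _ (Set.mem_singleton _), Set.sdiff_singleton_eq_self hg]

theorem Fw_sub (g : O ⊕ Fin b) (n p : ℤ) :
    Fw 𝒜 δ (wZ wN) S n p ≤ Fw 𝒜 δ (wZ wN) (insert g S) n p :=
  fun _ hx => Pc_mono (Set.subset_insert _ _) (fun _ _ _ => le_rfl) hx

theorem Fw_dd (g : O ⊕ Fin b) {n p : ℤ} {x : AA R O b}
    (hx : x ∈ Fw 𝒜 δ (wZ wN) (insert g S) n p) :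
    dd g x ∈ Fw 𝒜 δ (wZ wN) (insert g S) (n - δ g) (p - wN g) := by
  refine dd_mem (fun m hm => ?_) hx
  rw [lin_ins (wZ wN) hm]
  refine le_of_eq ?_
  congr 1
  change p - (lin (wZ wN) m + (wN g : ℤ)) = p - (wN g : ℤ) - lin (wZ wN) m
  ring

theorem Fw_ker [CharZero k] {g : O ⊕ Fin b} (hg : g ∉ S) {n p : ℤ} {x : AA R O b}
    (hx : x ∈ Fw 𝒜 δ (wZ wN) (insert g S) n p) (h0 : dd g x = 0) :
    x ∈ Fw 𝒜 δ (wZ wN) S n p := by
  have := ker_dd hx h0
  rwa [insert_sdiff hg] at this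

theorem Fw_gg (g : O ⊕ Fin b) {n p : ℤ} {x : AA R O b}
    (hx : x ∈ Fw 𝒜 δ (wZ wN) (insert g S) n p) :
    gg g * x ∈ Fw 𝒜 δ (wZ wN) (insert g S) (n + δ g) (p + wN g) := by
  refine gg_mul_mem (Set.mem_insert _ _) (fun m hm => ?_) hx
  rw [lin_ins (wZ wN) hm]
  refine le_of_eq ?_
  congr 1
  change p - lin (wZ wN) m = p + (wN g : ℤ) - (lin (wZ wN) m + (wN g : ℤ))
  ring

theorem dd_gg_inl (i : O) (x : AA R O b) :
    dd (Sum.inl i) (gg (Sum.inl i) * x) = x - gg (Sum.inl i) * dd (Sum.inl i) x := by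
  change con _ (xx _ * x) = x - xx _ * con _ x
  rw [con_xx_mul]
  change (Pi.single i (1 : R) : O → R) i • _ - _ = _
  rw [Pi.single_eq_same, one_smul]

theorem ser_even [CharZero k] [Algebra ℚ R] (hfd : ∀ n, Module.Finite k (𝒜 n))
    (hδ : ∀ g, 1 ≤ δ g) (hw : ∀ g, 1 ≤ wN g) (he : ∀ j, Even (δ (Sum.inr j))) (j : Fin b)
    (hg : Sum.inr j ∉ S) :
    hser (fun n p => Fw 𝒜 δ (wZ wN) S n p) =
      (1 - X ^ wN (Sum.inr j)) * hser (fun n p => Fw 𝒜 δ (wZ wN) (insert (Sum.inr j) S) n p) := by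
  refine hser_even (kk k (dd (Sum.inr j))) (bi_Fw 𝒜 hfd hδ hw _) (δ (Sum.inr j))
    (by linarith [hδ (Sum.inr j)]) (he j) (wN (Sum.inr j)) ?_ ?_ ?_
  · intro n p x hx
    exact Fw_dd 𝒜 (Sum.inr j) hx
  · intro n p x
    constructor
    · intro hx
      exact ⟨Fw_sub 𝒜 (Sum.inr j) n p hx, dd_eq_zero hg hx⟩
    · rintro ⟨hx, h0⟩
      exact Fw_ker 𝒜 hg hx h0
  · intro n p x hx
    refine ⟨int j x, ?_, dd_int j x⟩
    have h1 : ∀ m : Mo O b, AZ 𝒜 ((p - wN (Sum.inr j)) - lin (wZ wN) m) ≤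
        AZ 𝒜 (p - lin (wZ wN) (ins (Sum.inr j) m)) := by
      intro m
      rw [lin_ins (wZ wN) (fun i' hi' => by cases hi')]
      refine le_of_eq ?_
      congr 1
      change p - (wN (Sum.inr j) : ℤ) - lin (wZ wN) m =
        p - (lin (wZ wN) m + (wN (Sum.inr j) : ℤ))
      ring
    have := int_mem (φ' := fun m => AZ 𝒜 (p - lin (wZ wN) m)) (Set.mem_insert _ _) h1 hx
    rwa [sub_add_cancel] at this

theorem ser_odd [CharZero k] (hfd : ∀ n, Module.Finite k (𝒜 n))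
    (hδ : ∀ g, 1 ≤ δ g) (hw : ∀ g, 1 ≤ wN g) (ho : ∀ i, Odd (δ (Sum.inl i))) (i : O)
    (hg : Sum.inl i ∉ S) :
    hser (fun n p => Fw 𝒜 δ (wZ wN) (insert (Sum.inl i) S) n p) =
      (1 - X ^ wN (Sum.inl i)) * hser (fun n p => Fw 𝒜 δ (wZ wN) S n p) := by
  refine hser_odd (kk k (LinearMap.mulLeft R (gg (Sum.inl i)))) (bi_Fw 𝒜 hfd hδ hw _)
    (δ (Sum.inl i)) (by linarith [hδ (Sum.inl i)]) (ho i) (wN (Sum.inl i)) ?_ ?_ ?_ ?_
  · exact fun n p => Fw_sub 𝒜 (Sum.inl i) n p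
  · intro n p x hx
    exact Fw_gg 𝒜 (Sum.inl i) (Fw_sub 𝒜 (Sum.inl i) n p hx)
  · intro n p x hx
    have h1 := Fw_dd 𝒜 (Sum.inl i) hx
    have h2 : dd (Sum.inl i) (dd (Sum.inl i) x) = 0 := con_self _ _
    have h3 := Fw_ker 𝒜 hg h1 h2
    have h4 : gg (Sum.inl i) * dd (Sum.inl i) x ∈
        Fw 𝒜 δ (wZ wN) (insert (Sum.inl i) S) n p := by
      have := Fw_gg 𝒜 (Sum.inl i) h1
      rwa [sub_add_cancel, sub_add_cancel] at this
    have h5 : x - gg (Sum.inl i) * dd (Sum.inl i) x ∈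
        Fw 𝒜 δ (wZ wN) (insert (Sum.inl i) S) n p := Submodule.sub_mem _ hx h4
    have h6 : dd (Sum.inl i) (x - gg (Sum.inl i) * dd (Sum.inl i) x) = 0 := by
      rw [map_sub, dd_gg_inl, h2, mul_zero, sub_zero, sub_self]
    exact ⟨_, Fw_ker 𝒜 hg h5 h6, _, h3, (sub_add_cancel _ _).symm⟩
  · intro n p a ha c hc h
    have h1 : dd (Sum.inl i) a = 0 := dd_eq_zero hg ha
    have h2 : dd (Sum.inl i) c = 0 := dd_eq_zero hg hc
    have h4 : a + gg (Sum.inl i) * c = 0 := h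
    have h3 : c = 0 := by
      have := congrArg (dd (Sum.inl i)) h4
      rwa [map_add, h1, dd_gg_inl, h2, mul_zero, sub_zero, zero_add, map_zero] at this
    refine ⟨?_, h3⟩
    rwa [h3, mul_zero, add_zero] at h4

end steps

/-- the product formula -/
theorem ser_prod [CharZero k] [Algebra ℚ R] (hfd : ∀ n, Module.Finite k (𝒜 n))
    (hδ : ∀ g, 1 ≤ δ g) (hw : ∀ g, 1 ≤ wN g) (ho : ∀ i, Odd (δ (Sum.inl i)))
    (he : ∀ j, Even (δ (Sum.inr j))) (S : Finset (O ⊕ Fin b)) :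
    hser (fun n p => Fw 𝒜 δ (wZ wN) (S : Set (O ⊕ Fin b)) n p) *
        ∏ g ∈ S.filter (fun g => g.isRight = true), (1 - X ^ wN g) =
      hser (fun n p => Fw 𝒜 δ (wZ wN) (∅ : Set (O ⊕ Fin b)) n p) *
        ∏ g ∈ S.filter (fun g => ¬ g.isRight = true), (1 - X ^ wN g) := by
  have h := hser_prod (fun g : O ⊕ Fin b => g.isRight = true) wN
    (fun (T : Finset (O ⊕ Fin b)) n p => Fw 𝒜 δ (wZ wN) (T : Set (O ⊕ Fin b)) n p) ?_ ?_ S
  · rw [Finset.coe_empty] at h
    exact h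
  · intro T g hg hev
    rw [Finset.coe_insert]
    cases g with
    | inl i => exact absurd hev (by simp)
    | inr j => exact ser_even 𝒜 hfd hδ hw he j (by rwa [Finset.mem_coe])
  · intro T g hg hev
    rw [Finset.coe_insert]
    cases g with
    | inl i => exact ser_odd 𝒜 hfd hδ hw ho i (by rwa [Finset.mem_coe])
    | inr j => exact absurd rfl hev

section zero

variable {S : Set (O ⊕ Fin b)}

theorem lin_zero_mono (f : O ⊕ Fin b → ℤ) : lin f ((∅, 0) : Mo O b) = 0 := by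
  unfold lin
  simp

theorem em_mem {p : ℤ} {r : R} (hr : r ∈ AZ 𝒜 p) :
    r • (1 : AA R O b) ∈ Fw 𝒜 δ (wZ wN) S 0 p := by
  rw [← mon_zero]
  refine smul_mon_mem (mem_Cd.2 ⟨fun _ => ⟨⟨fun i hi => absurd hi (Finset.notMem_empty i),
    fun j hj => absurd rfl hj⟩, lin_zero_mono δ⟩, ?_⟩)
  rwa [lin_zero_mono, sub_zero]

theorem eq_em (hδ : ∀ g, 1 ≤ δ g) {p : ℤ} {x : AA R O b}
    (hx : x ∈ Fw 𝒜 δ (wZ wN) S 0 p) : x = co (∅, 0) x • (1 : AA R O b) := by
  apply co_ext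
  intro m
  rw [← mon_zero, map_smul, co_mon, smul_eq_mul]
  by_cases h : ((∅, 0) : Mo O b) = m
  · rw [if_pos h, mul_one, h]
  · rw [if_neg h, mul_zero]
    by_contra h0
    exact h (lin_eq_zero hδ ((mem_Cd.1 (hx m)).1 h0).2).symm

theorem co_zero_mem {p : ℤ} {x : AA R O b} (hx : x ∈ Fw 𝒜 δ (wZ wN) S 0 p) :
    co (∅, 0) x ∈ AZ 𝒜 p := by
  have := (mem_Cd.1 (hx (∅, 0))).2
  rwa [lin_zero_mono, sub_zero] at this

theorem Fw_zero (hδ : ∀ g, 1 ≤ δ g) (p : ℕ) :
    Fw 𝒜 δ (wZ wN) S 0 (p : ℤ) = (𝒜 p).map (em k R O b) := by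
  ext x
  rw [Submodule.mem_map]
  constructor
  · intro hx
    refine ⟨co (∅, 0) x, ?_, (eq_em 𝒜 hδ hx).symm⟩
    have := co_zero_mem 𝒜 hx
    rwa [AZ_nat] at this
  · rintro ⟨r, hr, rfl⟩
    refine em_mem 𝒜 ?_
    rwa [AZ_nat]

theorem finrank_em (N : Submodule k R) : finrank k (N.map (em k R O b)) = finrank k N :=
  (LinearEquiv.finrank_eq (Submodule.equivMapOfInjective _ em_inj N)).symm

/-- the series of the empty set of generators -/
theorem coeff_ser_empty (hδ : ∀ g, 1 ≤ δ g) (p : ℕ) :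
    coeff p (hser (fun n p => Fw 𝒜 δ (wZ wN) (∅ : Set (O ⊕ Fin b)) n p)) =
      (finrank k (𝒜 p) : ℤ) := by
  rw [coeff_hser, chi_eq_sum _ 1]
  · have h1 : Finset.Ico (0 : ℤ) 1 = {0} := by
      ext x
      rw [Finset.mem_Ico, Finset.mem_singleton]
      omega
    rw [h1, Finset.sum_singleton, Fw_zero 𝒜 hδ, finrank_em]
    simp
  · intro n hn
    obtain ⟨x, hx, hx0⟩ := Submodule.exists_mem_ne_zero_of_ne_bot hn
    obtain ⟨m, hm⟩ := exists_co_ne hx0
    obtain ⟨⟨h1, h2⟩, h3⟩ := (mem_Cd.1 (hx m)).1 hm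
    have h4 : m = (∅, 0) := by
      refine Prod.ext (Finset.eq_empty_of_forall_notMem fun i hi => h1 i hi) ?_
      ext j
      by_contra hj
      exact h2 j hj
    rw [h4, lin_zero_mono] at h3
    omega

end zero

section exact

variable {S : Set (O ⊕ Fin b)} {T : DD R O b}

/-- the ideal of the values of the differential on the generators of degree one -/
noncomputable def JJ (δ : O ⊕ Fin b → ℤ) (T : DD R O b) (S : Set (O ⊕ Fin b)) : Ideal R :=
  Ideal.span {r | ∃ g ∈ S, δ g = 1 ∧ r = co (∅, 0) (T g)}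

/-- monomials of degree one -/
theorem mono_one (hδ : ∀ g, 1 ≤ δ g) (he : ∀ j, Even (δ (Sum.inr j))) {m : Mo O b}
    (hm : SuppIn S m) (h1 : lin δ m = 1) :
    ∃ i, Sum.inl i ∈ S ∧ δ (Sum.inl i) = 1 ∧ m = ({i}, 0) := by
  obtain ⟨A, α⟩ := m
  have hA0 : 0 ≤ ∑ i ∈ A, δ (Sum.inl i) := Finset.sum_nonneg fun i _ => by linarith [hδ (Sum.inl i)]
  have hα0 : 0 ≤ ∑ j, (α j : ℤ) * δ (Sum.inr j) :=
    Finset.sum_nonneg fun j _ => mul_nonneg (by positivity) (by linarith [hδ (Sum.inr j)])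
  have hsum : ∑ i ∈ A, δ (Sum.inl i) + ∑ j, (α j : ℤ) * δ (Sum.inr j) = 1 := h1
  have hev : Even (∑ j, (α j : ℤ) * δ (Sum.inr j)) := Finset.even_sum _ fun j _ => (he j).mul_left _
  obtain ⟨e, hee⟩ := hev
  have hz : ∑ j, (α j : ℤ) * δ (Sum.inr j) = 0 := by omega
  rw [hz, add_zero] at hsum
  have hα : α = 0 := by
    rw [Finset.sum_eq_zero_iff_of_nonneg fun j _ => mul_nonneg (by positivity)
      (by linarith [hδ (Sum.inr j)])] at hz
    ext j
    rcases mul_eq_zero.1 (hz j (Finset.mem_univ _)) with h | h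
    · exact_mod_cast h
    · have := hδ (Sum.inr j)
      omega
  have hne : A.Nonempty := by
    rw [Finset.nonempty_iff_ne_empty]
    rintro rfl
    simp at hsum
  obtain ⟨i, hi⟩ := hne
  have hi2 := Finset.add_sum_erase A (fun i => δ (Sum.inl i)) hi
  have h3 : 0 ≤ ∑ x ∈ A.erase i, δ (Sum.inl x) :=
    Finset.sum_nonneg fun i _ => by linarith [hδ (Sum.inl i)]
  have h4 := hδ (Sum.inl i)
  have h5 : ∑ x ∈ A.erase i, δ (Sum.inl x) = 0 := by
    have : δ (Sum.inl i) + ∑ x ∈ A.erase i, δ (Sum.inl x) = 1 := by rw [← hsum]; exact hi2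
    omega
  have h6 : δ (Sum.inl i) = 1 := by
    have : δ (Sum.inl i) + ∑ x ∈ A.erase i, δ (Sum.inl x) = 1 := by rw [← hsum]; exact hi2
    omega
  have h7 : A.erase i = ∅ := by
    refine Finset.eq_empty_of_forall_notMem fun x hx => ?_
    rw [Finset.sum_eq_zero_iff_of_nonneg fun i _ => by linarith [hδ (Sum.inl i)]] at h5
    have := h5 x hx
    have := hδ (Sum.inl x)
    omega
  have h8 : A = {i} := by
    rw [← Finset.insert_erase hi, h7]
    rfl
  refine ⟨i, hm.1 i hi, h6, ?_⟩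
  rw [h8, hα]

theorem exists_comb (he : ∀ j, Even (δ (Sum.inr j))) {a : R} (ha : a ∈ JJ δ T S) :
    ∃ f : O → R, (∀ i, f i ≠ 0 → Sum.inl i ∈ S ∧ δ (Sum.inl i) = 1) ∧
      a = ∑ i, f i * co (∅, 0) (T (Sum.inl i)) := by
  classical
  unfold JJ at ha
  induction ha using Submodule.span_induction with
  | mem r hr =>
    obtain ⟨g, hgS, hg1, rfl⟩ := hr
    cases g with
    | inl i =>
      refine ⟨Pi.single i 1, ?_, ?_⟩
      · intro j hj
        by_cases h : j = i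
        · rw [h]
          exact ⟨hgS, hg1⟩
        · rw [Pi.single_eq_of_ne h] at hj
          exact absurd rfl hj
      · rw [Finset.sum_eq_single i]
        · rw [Pi.single_eq_same, one_mul]
        · intro j _ hj
          rw [Pi.single_eq_of_ne hj, zero_mul]
        · intro hi
          exact absurd (Finset.mem_univ _) hi
    | inr j =>
      obtain ⟨e, he⟩ := he j
      omega
  | zero => exact ⟨0, fun i hi => absurd rfl hi, by simp⟩
  | add x y _ _ hx hy =>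
    obtain ⟨f, h1, hf⟩ := hx
    obtain ⟨f', h2, hf'⟩ := hy
    refine ⟨f + f', ?_, ?_⟩
    · intro i hi
      by_cases h : f i = 0
      · rw [Pi.add_apply, h, zero_add] at hi
        exact h2 i hi
      · exact h1 i h
    · rw [hf, hf', ← Finset.sum_add_distrib]
      refine Finset.sum_congr rfl fun i _ => ?_
      rw [Pi.add_apply, add_mul]
  | smul r x _ hx =>
    obtain ⟨f, h1, hf⟩ := hx
    refine ⟨r • f, ?_, ?_⟩
    · intro i hi
      refine h1 i fun h => hi ?_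
      rw [Pi.smul_apply, h, smul_zero]
    · rw [hf, smul_eq_mul, Finset.mul_sum]
      refine Finset.sum_congr rfl fun i _ => ?_
      rw [Pi.smul_apply, smul_eq_mul, mul_assoc]

/-- the boundaries of degree zero -/
theorem map_d_one [GradedAlgebra 𝒜] (hT : Gr 𝒜 δ (wZ wN) T) (hS : Cl k δ T S) (p : ℕ) :
    (Fw 𝒜 δ (wZ wN) S 1 (p : ℤ)).map (kk k T.d) =
      ((JJ δ T S).restrictScalars k ⊓ 𝒜 p : Submodule k R).map (em k R O b) := by
  classical
  have hval : ∀ i, δ (Sum.inl i) = 1 → T (Sum.inl i) = co (∅, 0) (T (Sum.inl i)) •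
      (1 : AA R O b) ∧ co (∅, 0) (T (Sum.inl i)) ∈ 𝒜 (wN (Sum.inl i)) := by
    intro i hi
    have h := hT.val (Sum.inl i)
    rw [hi, sub_self] at h
    refine ⟨eq_em 𝒜 hT.pos h, ?_⟩
    have h2 := co_zero_mem 𝒜 h
    rwa [AZ_nat] at h2
  ext y
  rw [Submodule.mem_map, Submodule.mem_map]
  constructor
  · rintro ⟨x, hx, rfl⟩
    rw [kk_apply]
    have hdx : T.d x ∈ Fw 𝒜 δ (wZ wN) S 0 (p : ℤ) := by
      have := d_Fw hT hS hx
      rwa [sub_self] at this
    refine ⟨co (∅, 0) (T.d x), ⟨?_, ?_⟩, (eq_em 𝒜 hT.pos hdx).symm⟩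
    · change co (∅, 0) (T.d x) ∈ JJ δ T S
      obtain ⟨s, hs, -⟩ := exists_sum x
      rw [hs, map_sum, map_sum]
      refine Submodule.sum_mem _ fun m _ => ?_
      rw [map_smul, map_smul, smul_eq_mul]
      by_cases h0 : co m x = 0
      · rw [h0, zero_mul]
        exact Submodule.zero_mem _
      · obtain ⟨h1, h2⟩ := (mem_Cd.1 (hx m)).1 h0
        obtain ⟨i, hiS, hi, rfl⟩ := mono_one hT.pos hT.even h1 h2
        refine Ideal.mul_mem_left _ _ ?_
        rw [← gg_inl, d_gg]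
        exact Ideal.subset_span ⟨Sum.inl i, hiS, hi, rfl⟩
    · have := co_zero_mem 𝒜 hdx
      rwa [AZ_nat] at this
  · rintro ⟨a, ⟨haJ, hap⟩, rfl⟩
    obtain ⟨f, hfs, hf⟩ := exists_comb hT.even haJ
    -- homogeneous coefficients
    set r : O → R := fun i => if wN (Sum.inl i) ≤ p then
      (DirectSum.decompose 𝒜 (f i) (p - wN (Sum.inl i)) : R) else 0 with hr
    have hrm : ∀ i, r i ∈ AZ 𝒜 ((p : ℤ) - wN (Sum.inl i)) := by
      intro i
      rw [hr]
      by_cases h : wN (Sum.inl i) ≤ p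
      · simp only [if_pos h]
        rw [← Nat.cast_sub h, AZ_nat]
        exact SetLike.coe_mem _
      · simp only [if_neg h]
        exact Submodule.zero_mem _
    have hrs : ∀ i, r i ≠ 0 → Sum.inl i ∈ S ∧ δ (Sum.inl i) = 1 := by
      intro i hi
      refine hfs i fun h => hi ?_
      rw [hr]
      simp only [h, DirectSum.decompose_zero, DFinsupp.coe_zero, Pi.zero_apply,
        ZeroMemClass.coe_zero, ite_self]
    have ha : a = ∑ i, r i * co (∅, 0) (T (Sum.inl i)) := by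
      have h1 : a = ((DirectSum.decompose 𝒜 a p : 𝒜 p) : R) :=
        (DirectSum.decompose_of_mem_same 𝒜 hap).symm
      rw [h1, hf, DirectSum.decompose_sum, DFinsupp.finsetSum_apply,
        AddSubmonoidClass.coe_finsetSum]
      refine Finset.sum_congr rfl fun i _ => ?_
      by_cases h0 : f i = 0
      · rw [hr]
        simp only [h0, zero_mul, DirectSum.decompose_zero, DFinsupp.coe_zero, Pi.zero_apply,
          ZeroMemClass.coe_zero, ite_self]
      · have hd := (hval i (hfs i h0).2).2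
        by_cases h : wN (Sum.inl i) ≤ p
        · rw [DirectSum.coe_decompose_mul_of_right_mem_of_le 𝒜 hd h, hr]
          simp only [if_pos h]
        · rw [DirectSum.coe_decompose_mul_of_right_mem_of_not_le 𝒜 hd h, hr]
          simp only [if_neg h, zero_mul]
    refine ⟨∑ i, r i • mon ({i}, 0), ?_, ?_⟩
    · refine Submodule.sum_mem _ fun i _ => ?_
      refine smul_mon_mem (mem_Cd.2 ⟨fun h0 => ⟨⟨fun i' hi' => ?_, fun j hj => absurd rfl hj⟩,
        ?_⟩, ?_⟩)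
      · rw [Finset.mem_singleton.1 hi']
        exact (hrs i h0).1
      · unfold lin
        simp [(hrs i h0).2]
      · have : lin (wZ wN) (({i}, 0) : Mo O b) = wN (Sum.inl i) := by
          unfold lin
          simp
        rw [this]
        exact hrm i
    · rw [kk_apply, map_sum, em_apply, ha, Finset.sum_smul]
      refine Finset.sum_congr rfl fun i _ => ?_
      rw [map_smul, ← gg_inl, d_gg, mul_smul]
      by_cases h0 : r i = 0
      · rw [h0, zero_smul, zero_smul]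
      · rw [← (hval i (hrs i h0).2).1]

/-- the coefficients of the series under exactness -/
theorem coeff_ser_exact [GradedAlgebra 𝒜] (hfd : ∀ n, Module.Finite k (𝒜 n))
    (hT : Gr 𝒜 δ (wZ wN) T) (hS : Cl k δ T S)
    (hex : ∀ n p, 1 ≤ n → ∀ z ∈ Fw 𝒜 δ (wZ wN) S n p, T.d z = 0 →
      ∃ y ∈ Fw 𝒜 δ (wZ wN) S (n + 1) p, T.d y = z) (p : ℕ) :
    coeff p (hser (fun n p => Fw 𝒜 δ (wZ wN) S n p)) = (finrank k (𝒜 p) : ℤ) -
      finrank k ((JJ δ T S).restrictScalars k ⊓ 𝒜 p : Submodule k R) := by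
  have hw : ∀ g, 1 ≤ wN g := fun g => by exact_mod_cast hT.wpos g
  rw [coeff_hser_of_exact (kk k T.d) (bi_Fw 𝒜 hfd hT.pos hw S) (fun n p x hx => d_Fw hT hS hx)
    (fun x => hT.dd_sq x) (fun n p hn z hz h0 => hex n p hn z hz h0) p, map_d_one 𝒜 hT hS,
    Fw_zero 𝒜 hT.pos, finrank_em, finrank_em]

/-- the series under exactness -/
theorem ser_exact [GradedAlgebra 𝒜] (hfd : ∀ n, Module.Finite k (𝒜 n))
    (hT : Gr 𝒜 δ (wZ wN) T) (hS : Cl k δ T S)
    (hex : ∀ n p, 1 ≤ n → ∀ z ∈ Fw 𝒜 δ (wZ wN) S n p, T.d z = 0 →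
      ∃ y ∈ Fw 𝒜 δ (wZ wN) S (n + 1) p, T.d y = z) :
    hser (fun n p => Fw 𝒜 δ (wZ wN) S n p) = PowerSeries.mk fun p => ((finrank k (𝒜 p) : ℤ) -
      finrank k ((JJ δ T S).restrictScalars k ⊓ 𝒜 p : Submodule k R)) := by
  ext p
  rw [coeff_mk]
  exact coeff_ser_exact 𝒜 hfd hT hS hex p

/-- the series of the empty set of generators -/
theorem ser_empty (hδ : ∀ g, 1 ≤ δ g) :
    hser (fun n p => Fw 𝒜 δ (wZ wN) (∅ : Set (O ⊕ Fin b)) n p) =
      PowerSeries.mk fun p => (finrank k (𝒜 p) : ℤ) := by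
  ext p
  rw [coeff_mk]
  exact coeff_ser_empty 𝒜 hδ p

/-- the ideal of the values is homogeneous -/
theorem JJ_homogeneous [GradedAlgebra 𝒜] (hT : Gr 𝒜 δ (wZ wN) T) :
    (JJ δ T S).IsHomogeneous 𝒜 := by
  refine Ideal.homogeneous_span 𝒜 _ ?_
  rintro r ⟨g, -, hg, rfl⟩
  have h := hT.val g
  rw [hg, sub_self] at h
  have h2 := co_zero_mem 𝒜 h
  rw [AZ_nat] at h2
  exact ⟨_, h2⟩

end exact

end Pool.Agent.Helper72.QB
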